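import Pool.Agent.H76.SF.Stm

set_option autoImplicit false

namespace H9.SF

open Finset Classical H76.SF

theorem side {V : Type} [Fintype V] (G K : SimpleGraph V)
    (hGK : ∀ x y, x ≠ y → ¬ G.Adj x y → K.Adj x y) (n r m : ℕ) (hrm : r ≤ m)
    (W W' : Finset V) (hW : W.card + 1 = n + r)
    (h1 : (W.filter (fun w => m ≤ (W.filter (fun x => G.Adj w x)).card)).card < r)
    (h2 : (W'.filter (fun w => m ≤ (W'.filter (fun x => K.Adj w x)).card)).card < r) :
    n ≤ ((W.filter (fun w => ¬ m ≤ (W.filter (fun x => G.Adj w x)).card)) \ W').card + 3 * m := by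
  set T := W.filter (fun w => ¬ m ≤ (W.filter (fun x => G.Adj w x)).card) with hT
  set T' := W'.filter (fun w => ¬ m ≤ (W'.filter (fun x => K.Adj w x)).card) with hT'
  have e1 : (W.filter (fun w => m ≤ (W.filter (fun x => G.Adj w x)).card)).card + T.card =
      W.card := by
    have h := Finset.card_filter_add_card_filter_not (s := W)
      (fun w => m ≤ (W.filter (fun x => G.Adj w x)).card)
    rw [hT]
    convert h
  have hTn : n ≤ T.card := by omega
  have hI : (T ∩ T').card ≤ 2 * m := by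
    rcases (T ∩ T').eq_empty_or_nonempty with h | ⟨w, hw⟩
    · rw [h]; simp
    · rw [mem_inter, hT, hT', mem_filter, mem_filter] at hw
      have hsub : T ∩ T' ⊆ {w} ∪ (W.filter (fun x => G.Adj w x) ∪
          W'.filter (fun x => K.Adj w x)) := by
        intro x hx
        rw [mem_inter, hT, hT', mem_filter, mem_filter] at hx
        rw [mem_union, mem_union, mem_singleton, mem_filter, mem_filter]
        by_cases hxw : x = w
        · exact Or.inl hxw
        · right
          by_cases h : G.Adj w x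
          · exact Or.inl ⟨hx.1.1, h⟩
          · exact Or.inr ⟨hx.2.1, hGK w x (fun h3 => hxw h3.symm) h⟩
      have h3 := card_le_card hsub
      have h4 := card_union_le ({w} : Finset V) (W.filter (fun x => G.Adj w x) ∪
          W'.filter (fun x => K.Adj w x))
      have h5 := card_union_le (W.filter (fun x => G.Adj w x)) (W'.filter (fun x => K.Adj w x))
      rw [card_singleton] at h4
      have h6 := hw.1.2
      have h7 := hw.2.2
      omega
  have hTW : (T ∩ W').card ≤ 3 * m := by
    have hsub : T ∩ W' ⊆ (T ∩ T') ∪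
        W'.filter (fun w => m ≤ (W'.filter (fun x => K.Adj w x)).card) := by
      intro x hx
      rw [mem_inter] at hx
      rw [mem_union, mem_inter]
      by_cases h : m ≤ (W'.filter (fun y => K.Adj x y)).card
      · exact Or.inr (mem_filter.mpr ⟨hx.2, h⟩)
      · exact Or.inl ⟨hx.1, mem_filter.mpr ⟨hx.2, h⟩⟩
    have h3 := card_le_card hsub
    have h4 := card_union_le (T ∩ T')
      (W'.filter (fun w => m ≤ (W'.filter (fun x => K.Adj w x)).card))
    omega
  have h8 := card_sdiff_add_card_inter T W'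
  omega

theorem core {V : Type} [Fintype V] (G K : SimpleGraph V)
    (hGK : ∀ x y, x ≠ y → ¬ G.Adj x y → K.Adj x y) (hKG : ∀ x y, x ≠ y → ¬ K.Adj x y → G.Adj x y)
    (n r m : ℕ) (hr : 1 ≤ r) (hrm : r ≤ m) (hn : 20 * m ≤ n)
    (W W' : Finset V) (hW : W.card + 1 = n + r) (hW' : W'.card + 1 = n + r)
    (hW1 : (W.filter (fun w => m ≤ (W.filter (fun x => G.Adj w x)).card)).card < r)
    (hW1' : (W'.filter (fun w => m ≤ (W'.filter (fun x => K.Adj w x)).card)).card < r)
    (hO : ∀ w ∈ W, (W.filter (fun x => G.Adj w x)).card < m →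
      (univ.filter (fun x => K.Adj w x ∧ x ∉ W)).card < 4 * m)
    (hO' : ∀ w ∈ W', (W'.filter (fun x => K.Adj w x)).card < m →
      (univ.filter (fun x => G.Adj w x ∧ x ∉ W')).card < 4 * m) : False := by
  have hP := side G K hGK n r m hrm W W' hW hW1 hW1'
  have hP' := side K G hKG n r m hrm W' W hW' hW1' hW1
  set P := (W.filter (fun w => ¬ m ≤ (W.filter (fun x => G.Adj w x)).card)) \ W' with hPd
  set P' := (W'.filter (fun w => ¬ m ≤ (W'.filter (fun x => K.Adj w x)).card)) \ W with hPd'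
  obtain ⟨Q, hQP, hQ⟩ := exists_subset_card_eq (s := P) (n := 9 * m) (by omega)
  obtain ⟨Q', hQP', hQ'⟩ := exists_subset_card_eq (s := P') (n := 9 * m) (by omega)
  have hA : ∀ w ∈ Q, (Q'.filter (fun w' => K.Adj w w')).card ≤ 4 * m := by
    intro w hw
    have h1 := hQP hw
    rw [hPd, mem_sdiff, mem_filter, not_le] at h1
    have h2 := hO w h1.1.1 h1.1.2
    refine le_trans (card_le_card ?_) h2.le
    intro x hx
    rw [mem_filter] at hx
    rw [mem_filter]
    have h3 := hQP' hx.1
    rw [hPd', mem_sdiff] at h3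
    exact ⟨mem_univ _, hx.2, h3.2⟩
  have hB : ∀ w' ∈ Q', (Q.filter (fun w => G.Adj w' w)).card ≤ 4 * m := by
    intro w hw
    have h1 := hQP' hw
    rw [hPd', mem_sdiff, mem_filter, not_le] at h1
    have h2 := hO' w h1.1.1 h1.1.2
    refine le_trans (card_le_card ?_) h2.le
    intro x hx
    rw [mem_filter] at hx
    rw [mem_filter]
    have h3 := hQP hx.1
    rw [hPd, mem_sdiff] at h3
    exact ⟨mem_univ _, hx.2, h3.2⟩
  have hpair : ∀ w ∈ Q, ∀ w' ∈ Q', (1 : ℕ) ≤ (if G.Adj w' w then 1 else 0) +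
      (if K.Adj w w' then 1 else 0) := by
    intro w hw w' hw'
    have hne : w ≠ w' := by
      rintro rfl
      have h1 := hQP hw
      have h2 := hQP' hw'
      rw [hPd, mem_sdiff, mem_filter] at h1
      rw [hPd', mem_sdiff, mem_filter] at h2
      exact h2.2 h1.1.1
    by_cases h : G.Adj w' w
    · rw [if_pos h]; omega
    · have h3 : K.Adj w w' := hGK w w' hne (fun h2 => h h2.symm)
      rw [if_pos h3]; omega
  have hcount : Q.card * Q'.card ≤ ∑ w' ∈ Q', (Q.filter (fun w => G.Adj w' w)).card +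
      ∑ w ∈ Q, (Q'.filter (fun w' => K.Adj w w')).card := by
    calc Q.card * Q'.card = ∑ w ∈ Q, ∑ w' ∈ Q', 1 := by simp
      _ ≤ ∑ w ∈ Q, ∑ w' ∈ Q', ((if G.Adj w' w then 1 else 0) + (if K.Adj w w' then 1 else 0)) :=
          sum_le_sum (fun w hw => sum_le_sum (fun w' hw' => hpair w hw w' hw'))
      _ = ∑ w ∈ Q, ∑ w' ∈ Q', (if G.Adj w' w then 1 else 0) +
          ∑ w ∈ Q, ∑ w' ∈ Q', (if K.Adj w w' then 1 else 0) := by
          rw [← sum_add_distrib]
          exact sum_congr rfl (fun w _ => sum_add_distrib)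
      _ = _ := by
          rw [sum_comm]
          congr 1
          · exact sum_congr rfl (fun w' _ => (card_filter _ _).symm)
          · exact sum_congr rfl (fun w _ => (card_filter _ _).symm)
  have hs1 : ∑ w' ∈ Q', (Q.filter (fun w => G.Adj w' w)).card ≤ Q'.card * (4 * m) := by
    rw [← smul_eq_mul]; exact sum_le_card_nsmul _ _ _ hB
  have hs2 : ∑ w ∈ Q, (Q'.filter (fun w' => K.Adj w w')).card ≤ Q.card * (4 * m) := by
    rw [← smul_eq_mul]; exact sum_le_card_nsmul _ _ _ hA
  rw [hQ] at hcount hs2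
  rw [hQ'] at hcount hs1
  have hm1 : 1 ≤ m := hr.trans hrm
  nlinarith

theorem t_TWO (hSPA : S_SPA) (hOUT : S_OUT) : S_TWO := by
  intro V _ G n r q hr hV hn hv hv'
  obtain ⟨v, hv⟩ := hv
  obtain ⟨v', hv'⟩ := hv'
  by_contra hcon
  rw [not_or] at hcon
  obtain ⟨hG, hGc⟩ := hcon
  obtain ⟨W, hW, hW1⟩ := hSPA V G n r q v hr hv hG
  obtain ⟨W', hW', hW1'⟩ := hSPA V Gᶜ n r q v' hr (by convert hv') hGc
  have hO := hOUT V G n r q hr hV hn hGc W hW hW1
  have hO' := hOUT V Gᶜ n r q hr hV hn (by rwa [compl_compl]) W' hW' hW1'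
  have hrm : r ≤ r * (q + 1) := Nat.le_mul_of_pos_right r (Nat.succ_pos q)
  refine core G Gᶜ (fun x y hxy h => ?_) (fun x y hxy h => ?_) n r (r * (q + 1)) hr hrm hn W W'
    (by omega) (by omega) hW1 hW1' (fun w hw h => ?_) (fun w hw h => ?_)
  · rw [SimpleGraph.compl_adj]; exact ⟨hxy, h⟩
  · rw [SimpleGraph.compl_adj] at h
    by_contra h2
    exact h ⟨hxy, h2⟩
  · have h1 := hO w hw h
    convert h1
  · have h1 := hO' w hw h
    refine lt_of_le_of_lt (le_of_eq ?_) h1
    congr 1
    ext x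
    have e : (Gᶜ)ᶜ.Adj w x ↔ G.Adj w x := by rw [compl_compl]
    constructor
    · intro hx
      have hx' := Finset.mem_filter.mp hx
      simp only [mem_filter_univ]
      exact ⟨e.mpr hx'.2.1, hx'.2.2⟩
    · intro hx
      simp only [mem_filter_univ] at hx
      refine Finset.mem_filter.mpr ⟨mem_univ _, e.mp hx.1, hx.2⟩

end H9.SF
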